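import Pool.Agent.Work.MP_bb5f23_al.LitMain

/-!
Finite-dimensional Hom spaces from tensor products in the category X(G), for every connected
reductive subgroup of `GL_n` over the algebraic closure of a finite field.
-/

open Pool.Agent.Work.MP_bb5f23_al Pool.Agent.Work.MP_bb5f23_al.Lit

namespace Pool.Agent.Results.MP_bb5f23_al.Reductive

theorem result (K : Type) [Field K] [Finite K] (n : ℕ)
    (G B T : Subgroup (GL (Fin n) (AlgebraicClosure K))) (hG : IsConnRed G) (hB : IsBorel G B)
    (hT : IsMaxTorus G T) (hTB : T ≤ B) {k : Type*} [Field k] [CharZero k]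
    {M N L : Type*} [AddCommGroup M] [Module k M] [AddCommGroup N] [Module k N]
    [AddCommGroup L] [Module k L] (ρM : Representation k G M) (ρN : Representation k G N)
    (ρL : Representation k G L) (hM : InX G B T ρM) (hN : InX G B T ρN) (hL : InX G B T ρL) :
    Module.Finite k ((ρM.tprod ρN).IntertwiningMap ρL) :=
  haveI := isFbar_closure K
  main hG hB hT hTB hM hN hL

end Pool.Agent.Results.MP_bb5f23_al.Reductive
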